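import Pool.Agent.Y649.DG.Stm

set_option autoImplicit false

/-! # DG-COV: families of determinants -/

namespace Pool.Agent.Y815.DG

open Finset MvPolynomial
open Pool.Agent.Y638.RF (Cov)
open Pool.Agent.Y649.DG (S_SCHUR S_COV)

/-- `Cov` with arbitrary finite types of parameters -/
theorem cov_of {Y : Type} {M d W : ℕ} {𝒢 : Set (Y → ℝ)} (κ : Type) [Fintype κ] (σ : κ → Type)
    [∀ k, Fintype (σ k)] (P : (k : κ) → Y → MvPolynomial (σ k) ℝ)
    (h1 : ∀ k v, (P k v).totalDegree ≤ d) (h2 : ∑ k, M ^ Fintype.card (σ k) ≤ W)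
    (h3 : ∀ g ∈ 𝒢, ∃ (k : κ) (θ : σ k → ℝ), ∀ v, g v = eval θ (P k v)) : Cov M d W 𝒢 := by
  refine ⟨κ, inferInstance, fun k => Fintype.card (σ k),
    fun k v => rename (Fintype.equivFin (σ k)) (P k v), fun k v => ?_, h2, ?_⟩
  · exact (totalDegree_rename_le _ _).trans (h1 k v)
  · intro g hg
    obtain ⟨k, θ, hk⟩ := h3 g hg
    refine ⟨k, θ ∘ (Fintype.equivFin (σ k)).symm, fun v => ?_⟩
    rw [hk v, eval_rename]
    have h4 : (θ ∘ (Fintype.equivFin (σ k)).symm) ∘ (Fintype.equivFin (σ k)) = θ := by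
      funext x
      simp
    rw [h4]

/-- the degree of a determinant -/
theorem deg_det {σ U : Type} [Fintype U] [DecidableEq U] (N : Matrix U U (MvPolynomial σ ℝ))
    (b : U → ℕ) (h : ∀ a c, (N a c).totalDegree ≤ b a) : N.det.totalDegree ≤ ∑ a, b a := by
  rw [Matrix.det_apply]
  refine totalDegree_finsetSum_le fun τ _ => ?_
  have h1 : (∏ i, N (τ i) i).totalDegree ≤ ∑ a, b a := by
    refine (totalDegree_finsetProd _ _).trans ?_
    rw [← Equiv.sum_comp τ b]
    exact sum_le_sum fun i _ => h _ _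
  rcases Int.units_eq_one_or (Equiv.Perm.sign τ) with h2 | h2
  · rw [h2, one_smul]
    exact h1
  · rw [h2, Units.neg_smul, one_smul, totalDegree_neg]
    exact h1

theorem cov_det (hS : S_SCHUR) : S_COV := by
  classical
  intro Y M m hM E d W 𝒢 h
  choose κ hκ p P h1 h2 h3 using fun e : E => h e.1 e.2
  obtain ⟨U, hU⟩ : ∃ U : Finset (Fin m), U = E.image Prod.fst := ⟨_, rfl⟩
  obtain ⟨V, hV⟩ : ∃ V : Finset (Fin m), V = E.image Prod.snd := ⟨_, rfl⟩
  have hUr : U.card ≤ E.card := hU ▸ card_image_le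
  have hVr : V.card ≤ E.card := hV ▸ card_image_le
  -- the families
  let σ : ((e : E) → κ e) → Type := fun k => (Σ e : E, Fin (p e (k e))) ⊕ Unit ⊕ (U × U) ⊕ (V × U)
  let ent : (k : (e : E) → κ e) → Y → U → U → MvPolynomial (σ k) ℝ := fun k v a c =>
    X (Sum.inr (Sum.inr (Sum.inl (a, c)))) + ∑ y : V, if hh : ((a : Fin m), (y : Fin m)) ∈ E then
      rename (fun j => Sum.inl (⟨⟨_, hh⟩, j⟩ : Σ e : E, Fin (p e (k e)))) (P ⟨_, hh⟩ (k ⟨_, hh⟩) v) *
        X (Sum.inr (Sum.inr (Sum.inr (y, c)))) else 0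
  let Q : (k : (e : E) → κ e) → Y → MvPolynomial (σ k) ℝ := fun k v =>
    X (Sum.inr (Sum.inl ())) * (Matrix.of fun a c => ent k v a c).det
  refine cov_of ((e : E) → κ e) σ Q ?_ ?_ ?_
  · -- degrees
    intro k v
    have hent : ∀ a c, (ent k v a c).totalDegree ≤
        1 + ∑ y : V, if ((a : Fin m), (y : Fin m)) ∈ E then d ((a : Fin m), (y : Fin m)) else 0 := by
      intro a c
      refine (totalDegree_add _ _).trans (max_le ?_ ?_)
      · rw [totalDegree_X]
        exact Nat.le_add_right _ _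
      · refine totalDegree_finsetSum_le fun y _ => ?_
        by_cases hh : ((a : Fin m), (y : Fin m)) ∈ E
        · rw [dif_pos hh]
          refine (totalDegree_mul _ _).trans ?_
          rw [totalDegree_X, add_comm]
          refine Nat.add_le_add_left ?_ 1
          refine (totalDegree_rename_le _ _).trans ((h1 _ _ _).trans ?_)
          have h4 := Finset.single_le_sum (f := fun y : V =>
            if ((a : Fin m), (y : Fin m)) ∈ E then d ((a : Fin m), (y : Fin m)) else 0)
            (fun _ _ => Nat.zero_le _) (mem_univ y)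
          simp only [if_pos hh] at h4
          exact h4
        · rw [dif_neg hh, totalDegree_zero]
          exact Nat.zero_le _
    refine (totalDegree_mul _ _).trans ?_
    rw [totalDegree_X]
    have h4 := deg_det (Matrix.of fun a c => ent k v a c) _ (fun a c => hent a c)
    have h5 : ∑ a : U, ∑ y : V, (if ((a : Fin m), (y : Fin m)) ∈ E then
        d ((a : Fin m), (y : Fin m)) else 0) ≤ ∑ e ∈ E, d e := by
      rw [Finset.sum_coe_sort U (fun a => ∑ y : V, (if (a, (y : Fin m)) ∈ E then
        d (a, (y : Fin m)) else 0))]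
      have h6 : ∀ a ∈ U, (∑ y : V, (if (a, (y : Fin m)) ∈ E then d (a, (y : Fin m)) else 0)) =
          ∑ y ∈ V, if (a, y) ∈ E then d (a, y) else 0 := fun a _ =>
        Finset.sum_coe_sort V (fun y => if (a, y) ∈ E then d (a, y) else 0)
      have h7 : (∑ x ∈ U ×ˢ V, if (x.1, x.2) ∈ E then d (x.1, x.2) else 0) =
          ∑ x ∈ (U ×ˢ V).filter (fun x => x ∈ E), d x := by rw [Finset.sum_filter]
      rw [Finset.sum_congr rfl h6, ← Finset.sum_product' (f := fun a y =>
        if (a, y) ∈ E then d (a, y) else 0), h7]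
      refine Finset.sum_le_sum_of_subset fun x hx => ?_
      exact (mem_filter.1 hx).2
    rw [Finset.sum_add_distrib, Finset.sum_const, Finset.card_univ, Fintype.card_coe,
      smul_eq_mul, mul_one] at h4
    omega
  · -- weights
    have hc : ∀ k, Fintype.card (σ k) = ∑ e : E, p e (k e) +
        (1 + (U.card * U.card + V.card * U.card)) := by
      intro k
      show Fintype.card ((Σ e : E, Fin (p e (k e))) ⊕ Unit ⊕ (U × U) ⊕ (V × U)) = _
      simp [Fintype.card_sum, Fintype.card_sigma, Fintype.card_prod]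
    have h4 : ∑ k : (e : E) → κ e, M ^ Fintype.card (σ k) =
        (∏ e : E, ∑ j, M ^ p e j) * M ^ (1 + (U.card * U.card + V.card * U.card)) := by
      rw [Finset.prod_univ_sum, Fintype.piFinset_univ, Finset.sum_mul]
      refine Finset.sum_congr rfl fun k _ => ?_
      rw [hc, pow_add, Finset.prod_pow_eq_pow_sum]
    rw [h4, mul_comm]
    have h5 : ∏ e : E, ∑ j, M ^ p e j ≤ ∏ e ∈ E, W e := by
      rw [← Finset.prod_coe_sort E W]
      exact Finset.prod_le_prod' fun e _ => h2 e
    refine Nat.mul_le_mul (Nat.pow_le_pow_right hM ?_) h5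
    have h6 := Nat.mul_le_mul hUr hUr
    have h7 := Nat.mul_le_mul hVr hUr
    nlinarith
  · -- evaluation
    rintro g ⟨A, b, hb, rfl⟩
    choose k θ hk using fun e : E => h3 e (b e) (hb e.1 e.2)
    obtain ⟨δ, C, H, hCH⟩ := hS ℝ m U (Matrix.of fun x y => if (x, y) ∈ E then 0 else A x y)
    refine ⟨k, Sum.elim (fun s => θ s.1 s.2) (Sum.elim (fun _ => δ)
      (Sum.elim (fun x => C x.1 x.2) (fun x => H x.1 x.2))), fun v => ?_⟩
    have h4 := hCH (Matrix.of fun x y => if (x, y) ∈ E then b (x, y) v else 0) (by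
      intro x hx y
      show (if (x, y) ∈ E then b (x, y) v else 0) = 0
      rw [if_neg]
      intro hxy
      apply hx
      rw [hU]
      exact mem_image.2 ⟨(x, y), hxy, rfl⟩)
    have h5 : (Matrix.of fun x y => if (x, y) ∈ E then b (x, y) v else A x y) =
        (Matrix.of fun x y => if (x, y) ∈ E then 0 else A x y) +
          (Matrix.of fun x y => if (x, y) ∈ E then b (x, y) v else 0) := by
      ext x y
      show (if (x, y) ∈ E then b (x, y) v else A x y) = (if (x, y) ∈ E then 0 else A x y) +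
        (if (x, y) ∈ E then b (x, y) v else 0)
      split_ifs <;> simp
    simp only
    rw [h5, h4, map_mul, eval_X, RingHom.map_det]
    simp only [Sum.elim_inr, Sum.elim_inl]
    congr 2
    ext a c
    show C a c + ∑ y : Fin m, (if ((a : Fin m), y) ∈ E then b ((a : Fin m), y) v else 0) * H y c = _
    rw [RingHom.mapMatrix_apply, Matrix.map_apply]
    show _ = eval _ (ent k v a c)
    rw [map_add, eval_X, map_sum]
    simp only [Sum.elim_inr, Sum.elim_inl]
    congr 1
    have h6 : ∑ y : Fin m, (if ((a : Fin m), y) ∈ E then b ((a : Fin m), y) v else 0) * H y c =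
        ∑ y ∈ V, (if ((a : Fin m), y) ∈ E then b ((a : Fin m), y) v else 0) * H y c := by
      symm
      refine Finset.sum_subset (subset_univ _) fun y _ hy => ?_
      rw [if_neg, zero_mul]
      intro hay
      apply hy
      rw [hV]
      exact mem_image.2 ⟨_, hay, rfl⟩
    rw [h6, ← Finset.sum_coe_sort V (fun y =>
      (if ((a : Fin m), y) ∈ E then b ((a : Fin m), y) v else 0) * H y c)]
    refine Finset.sum_congr rfl fun y _ => ?_
    by_cases hh : ((a : Fin m), (y : Fin m)) ∈ E
    · rw [if_pos hh, dif_pos hh, map_mul, eval_X, eval_rename]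
      simp only [Sum.elim_inr]
      congr 1
      rw [hk ⟨_, hh⟩ v]
      rfl
    · rw [if_neg hh, dif_neg hh, zero_mul, map_zero]

end Pool.Agent.Y815.DG
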